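import Mathlib

/-!
# Pretty bases, cocompactness and k-spaces: definitions
-/

set_option autoImplicit false

namespace Pool.Agent.PrettyBase

open Set TopologicalSpace

/-- `cz f = {x | f x = 1}` for a function `f : X → {0, 1}`. -/
def cz {X : Type*} (f : X → Fin 2) : Set X := {x | f x = 1}

/-- The family of sets `𝓑(H) = {cz f | f ∈ H}` given by a family `H` of functions
`X → {0, 1}`. -/
def baseOf {X : Type*} (H : Set (X → Fin 2)) : Set (Set X) := {B | ∃ f ∈ H, B = cz f}

/-- `H` is `(ω₁, ∞)`-nested: if `C, D ⊆ H`, `C` is countable and `c ≤ 1 - d` (pointwise) for all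
`c ∈ C`, `d ∈ D`, then there is `f ∈ H` with `c ≤ f` for all `c ∈ C` and `f ≤ 1 - d` for all
`d ∈ D`. -/
def IsNested {X : Type*} (H : Set (X → Fin 2)) : Prop :=
  ∀ C D : Set (X → Fin 2), C ⊆ H → D ⊆ H → C.Countable →
    (∀ c ∈ C, ∀ d ∈ D, c ≤ 1 - d) →
    ∃ f ∈ H, (∀ c ∈ C, c ≤ f) ∧ (∀ d ∈ D, f ≤ 1 - d)

/-- `𝓑(H)` is a pretty base for the topological space `X`: it is a base for the topology, every
`f ∈ H` is continuous and `H` is `(ω₁, ∞)`-nested. -/
structure IsPretty (X : Type*) [TopologicalSpace X] (H : Set (X → Fin 2)) : Prop where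
  base : IsTopologicalBasis (baseOf H)
  cont : ∀ f ∈ H, Continuous f
  nested : IsNested H

/-- The cotopology `τ*(𝓑)` of a family `𝓑` of sets: the topology generated by the
sets `X \ cl B`, `B ∈ 𝓑`. -/
@[reducible] def cotopology {X : Type*} [TopologicalSpace X] (𝓑 : Set (Set X)) : TopologicalSpace X :=
  TopologicalSpace.generateFrom {U | ∃ B ∈ 𝓑, U = (closure B)ᶜ}

/-- A base `𝓑` is cocompact if `(X, τ*(𝓑))` is compact (every open cover has a finite
subcover). -/
def IsCocompact {X : Type*} [TopologicalSpace X] (𝓑 : Set (Set X)) : Prop :=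
  @CompactSpace X (cotopology 𝓑)

/-- `X` is a k-space: a set `A ⊆ X` is closed whenever `A ∩ K` is closed in `K` for every compact
`K ⊆ X`. -/
def IsKSpace (X : Type*) [TopologicalSpace X] : Prop :=
  ∀ A : Set X, (∀ K : Set X, IsCompact K → IsClosed (Subtype.val ⁻¹' A : Set K)) → IsClosed A

end Pool.Agent.PrettyBase
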