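import Pool.Agent.PrettyBase.Defs

/-!
# A cocompact pretty base on a space that is not a k-space

The space is a subspace of the Stone-Cech compactification of an uncountable discrete set `κ`
(we take `κ = ℝ`), realised as the space `Ultrafilter κ`. It consists of all ultrafilters that
contain a countable set, together with one further ultrafilter `p` that contains no countable set.
The base consists of the sets `{u | A ∈ u}` where `A` is countable or `A ∈ p`.
-/

set_option autoImplicit false

namespace Pool.Agent.PrettyBase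

open Set TopologicalSpace

/-! ### The space -/

section Construction

variable {κ : Type} (p : Ultrafilter κ)

/-- The underlying set of the example. -/
abbrev Sp : Type := {u : Ultrafilter κ // (∃ A : Set κ, A.Countable ∧ A ∈ u) ∨ u = p}

/-- The basic clopen set given by `A`. -/
def Bas (A : Set κ) : Set (Sp p) := {x | A ∈ x.1}

open Classical in
/-- The indicator function of the basic clopen set given by `A`. -/
noncomputable def ind (A : Set κ) : Sp p → Fin 2 := fun x => if A ∈ x.1 then 1 else 0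

/-- The family of functions giving the base. -/
def Fam : Set (Sp p → Fin 2) := {f | ∃ A : Set κ, (A.Countable ∨ A ∈ p) ∧ f = ind p A}

lemma cz_ind (A : Set κ) : cz (ind p A) = Bas p A := by
  ext x
  simp [cz, ind, Bas]

lemma isClopen_Bas (A : Set κ) : IsClopen (Bas p A) :=
  ⟨(ultrafilter_isClosed_basic A).preimage continuous_subtype_val,
    (ultrafilter_isOpen_basic A).preimage continuous_subtype_val⟩

lemma continuous_ind (A : Set κ) : Continuous (ind p A) := by
  have : ind p A = (Bas p A).indicator (fun _ => (1 : Fin 2)) := by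
    funext x
    simp only [ind, Bas, Set.indicator, mem_ofPred_eq]
    congr
  rw [this]
  refine continuous_const.indicator ?_
  intro x hx
  rw [(isClopen_Bas p A).frontier_eq] at hx
  exact absurd hx (notMem_empty x)

/-- The principal ultrafilters as points of the space. -/
def pt (a : κ) : Sp p := ⟨pure a, Or.inl ⟨{a}, countable_singleton a, by simp⟩⟩

lemma isBasis : IsTopologicalBasis (baseOf (Fam p)) := by
  refine isTopologicalBasis_of_isOpen_of_nhds ?_ ?_
  · rintro _ ⟨f, ⟨A, -, rfl⟩, rfl⟩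
    rw [cz_ind]
    exact (isClopen_Bas p A).isOpen
  · intro x U hx hU
    obtain ⟨V, hV, rfl⟩ := isOpen_induced_iff.mp hU
    obtain ⟨_, ⟨A, rfl⟩, hA, hAV⟩ := ultrafilterBasis_is_basis.exists_subset_of_mem_open hx hV
    rcases x.2 with ⟨E, hE, hEx⟩ | hxp
    · refine ⟨Bas p (A ∩ E), ⟨ind p (A ∩ E), ⟨A ∩ E, Or.inl (hE.mono inter_subset_right), rfl⟩,
        (cz_ind p _).symm⟩, Filter.inter_mem hA hEx, ?_⟩
      intro y hy
      exact hAV (Filter.mem_of_superset hy inter_subset_left)
    · refine ⟨Bas p A, ⟨ind p A, ⟨A, Or.inr (by rw [← hxp]; exact hA), rfl⟩,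
        (cz_ind p _).symm⟩, hA, ?_⟩
      intro y hy
      exact hAV hy

lemma le_one_sub_iff (A B : Set κ) : ind p A ≤ 1 - ind p B ↔ A ∩ B = ∅ := by
  constructor
  · intro h
    by_contra hne
    obtain ⟨a, haA, haB⟩ := nonempty_iff_ne_empty.mpr hne
    have := h (pt p a)
    simp [ind, pt, haA, haB] at this
  · intro h x
    by_cases hA : A ∈ x.1
    · have hB : B ∉ x.1 := by
        intro hB
        have := Filter.inter_mem hA hB
        rw [h] at this
        exact x.1.empty_notMem this
      simp [ind, hA, hB]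
    · simp [ind, hA]

lemma nested : IsNested (Fam p) := by
  intro C D hC hD hCc hCD
  have hC' : ∀ c, c ∈ C → ∃ A : Set κ, (A.Countable ∨ A ∈ p) ∧ c = ind p A := fun c hc => hC hc
  have hD' : ∀ d, d ∈ D → ∃ A : Set κ, (A.Countable ∨ A ∈ p) ∧ d = ind p A := fun d hd => hD hd
  choose! g hg using hC'
  choose! k hk using hD'
  refine ⟨ind p (⋃ c ∈ C, g c), ⟨_, ?_, rfl⟩, ?_, ?_⟩
  · by_cases h : ∃ c ∈ C, g c ∈ p
    · obtain ⟨c, hc, hcp⟩ := h
      exact Or.inr (Filter.mem_of_superset hcp (subset_biUnion_of_mem hc))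
    · refine Or.inl (hCc.biUnion fun c hc => ?_)
      exact ((hg c hc).1).resolve_right fun hcp => h ⟨c, hc, hcp⟩
  · intro c hc
    rw [(hg c hc).2]
    intro x
    by_cases hx : g c ∈ x.1
    · have : (⋃ c ∈ C, g c) ∈ x.1 := Filter.mem_of_superset hx (subset_biUnion_of_mem hc)
      simp [ind, this, hx]
    · simp [ind, hx]
  · intro d hd
    rw [(hk d hd).2, le_one_sub_iff]
    rw [iUnion₂_inter]
    simp only [iUnion_eq_empty]
    intro c hc
    have := hCD c hc d hd
    rw [(hg c hc).2, (hk d hd).2, le_one_sub_iff] at this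
    exact this

lemma isPretty : IsPretty (Sp p) (Fam p) where
  base := isBasis p
  cont := by
    rintro _ ⟨A, -, rfl⟩
    exact continuous_ind p A
  nested := nested p

lemma isCompact_Bas {A : Set κ} (hA : A.Countable) : IsCompact (Bas p A) := by
  have h1 : IsCompact {u : Ultrafilter κ | A ∈ u} := (ultrafilter_isClosed_basic A).isCompact
  rw [Subtype.isCompact_iff]
  convert h1 using 1
  ext u
  constructor
  · rintro ⟨x, hx, rfl⟩
    exact hx
  · intro hu
    exact ⟨⟨u, Or.inl ⟨A, hA, hu⟩⟩, hu, rfl⟩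

lemma isCocompact : IsCocompact (baseOf (Fam p)) := by
  unfold IsCocompact
  refine @compactSpace_generateFrom (Sp p) (cotopology (baseOf (Fam p))) _ rfl ?_
  intro P hP hcov
  -- the family of sets `A` that appear
  by_cases hcount : ∃ U ∈ P, ∃ A : Set κ, A.Countable ∧ U = (Bas p A)ᶜ
  · obtain ⟨U, hU, A, hA, rfl⟩ := hcount
    have hcomp := isCompact_Bas p hA
    have hopen : ∀ V ∈ P, IsOpen V := by
      intro V hV
      obtain ⟨B, _, rfl⟩ := hP hV
      exact isClosed_closure.isOpen_compl
    obtain ⟨Q, hQP, hQf, hQ⟩ := hcomp.elim_finite_subcover_image (c := id) hopen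
      (by simp only [id]; rw [← sUnion_eq_biUnion, hcov]; exact subset_univ _)
    simp only [id] at hQ
    rw [← sUnion_eq_biUnion] at hQ
    refine ⟨insert (Bas p A)ᶜ Q, insert_subset hU hQP, hQf.insert _, ?_⟩
    rw [sUnion_insert, eq_univ_iff_forall]
    intro x
    by_cases hx : x ∈ Bas p A
    · exact Or.inr (hQ hx)
    · exact Or.inl hx
  · exfalso
    have hp : (⟨p, Or.inr rfl⟩ : Sp p) ∈ ⋃₀ P := by rw [hcov]; trivial
    obtain ⟨U, hU, hpU⟩ := hp
    obtain ⟨B, ⟨f, ⟨A, hA, rfl⟩, rfl⟩, rfl⟩ := hP hU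
    rw [cz_ind, (isClopen_Bas p A).isClosed.closure_eq] at hU hpU
    rcases hA with hA | hA
    · exact hcount ⟨_, hU, A, hA, rfl⟩
    · exact hpU hA

/-- Every compact subset `K` of the space is contained, apart from the point `p`, in one basic set
given by a countable set `E`. -/
lemma exists_countable_of_isCompact {K : Set (Sp p)} (hK : IsCompact K) :
    ∃ E : Set κ, E.Countable ∧ ∀ x ∈ K, x.1 ≠ p → E ∈ x.1 := by
  by_contra hcon
  have hcon' : ∀ E : Set κ, E.Countable → ∃ x ∈ K, x.1 ≠ p ∧ E ∉ x.1 := by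
    intro E hE
    by_contra h
    refine hcon ⟨E, hE, fun x hx hxp => ?_⟩
    by_contra hEx
    exact h ⟨x, hx, hxp, hEx⟩
  -- the good countable sets
  let G : Set (Set κ) := {D | D.Countable ∧ ∃ x ∈ K, x.1 ≠ p ∧ D ∈ x.1}
  -- maximal pairwise disjoint family of good sets
  obtain ⟨M, hM⟩ := zorn_subset {𝒟 : Set (Set κ) | 𝒟 ⊆ G ∧ 𝒟.PairwiseDisjoint id} (by
    intro c hc hchain
    refine ⟨⋃₀ c, ⟨sUnion_subset fun s hs => (hc hs).1, ?_⟩, fun s hs => subset_sUnion_of_mem hs⟩
    exact (pairwiseDisjoint_sUnion hchain.directedOn).2 fun s hs => (hc hs).2)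
  have hMG : M ⊆ G := hM.prop.1
  have hMd : M.PairwiseDisjoint id := hM.prop.2
  have hMunc : ¬ M.Countable := by
    intro hMc
    have hUc : (⋃₀ M).Countable := hMc.sUnion fun D hD => (hMG hD).1
    obtain ⟨x, hxK, hxp, hx⟩ := hcon' _ hUc
    obtain ⟨A, hA, hAx⟩ := x.2.resolve_right hxp
    have hD : A \ ⋃₀ M ∈ x.1 :=
      Filter.inter_mem hAx (Ultrafilter.compl_mem_iff_notMem.mpr hx)
    have hDG : A \ ⋃₀ M ∈ G := ⟨hA.mono sdiff_subset, x, hxK, hxp, hD⟩
    have hnot : A \ ⋃₀ M ∈ M := by
      have hins : insert (A \ ⋃₀ M) M ∈ {𝒟 : Set (Set κ) | 𝒟 ⊆ G ∧ 𝒟.PairwiseDisjoint id} := by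
        refine ⟨insert_subset hDG hMG, ?_⟩
        refine hMd.insert fun B hB _ => ?_
        simp only [id]
        rw [Set.disjoint_left]
        intro a ha haB
        exact ha.2 ⟨B, hB, haB⟩
      exact hM.le_of_ge hins (subset_insert _ _) (mem_insert _ _)
    obtain ⟨a, ha⟩ := x.1.nonempty_of_mem hD
    exact ha.2 ⟨_, hnot, ha⟩
  -- split the family
  have hMinf : M.Infinite := fun h => hMunc h.countable
  obtain ⟨M₁, M₂, hM12, hdisj, hcard⟩ := hMinf.exists_union_disjoint_cardinal_eq_of_infinite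
  have hcount : M₁.Countable ↔ M₂.Countable := by
    rw [← Cardinal.le_aleph0_iff_set_countable, ← Cardinal.le_aleph0_iff_set_countable, hcard]
  have h1 : ¬ M₁.Countable := by
    intro h
    exact hMunc (hM12 ▸ h.union (hcount.1 h))
  have h2 : ¬ M₂.Countable := fun h => h1 (hcount.2 h)
  have key : ∀ N : Set (Set κ), N ⊆ M → ¬ N.Countable → ⋃₀ N ∈ p := by
    intro N hNM hN
    by_contra hNp
    -- the compact set of points of `K` containing the union of `N`
    have hcomp : IsCompact (K ∩ Bas p (⋃₀ N)) := hK.inter_right (isClopen_Bas p _).isClosed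
    obtain ⟨b, hb, hbf, hbc⟩ := hcomp.elim_finite_subcover_image
      (b := {A : Set κ | A.Countable}) (c := Bas p)
      (fun A _ => (isClopen_Bas p A).isOpen) (by
        rintro x ⟨-, hx⟩
        have hxp : x.1 ≠ p := by
          intro h
          rw [← h] at hNp
          exact hNp hx
        obtain ⟨A, hA, hAx⟩ := x.2.resolve_right hxp
        exact mem_biUnion (show A ∈ {A : Set κ | A.Countable} from hA) hAx)
    have hAc : (⋃₀ b).Countable := hbf.countable.sUnion fun A hA => hb hA
    have hmeet : ∀ D ∈ N, (D ∩ ⋃₀ b).Nonempty := by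
      intro D hD
      obtain ⟨-, x, hxK, -, hDx⟩ := hMG (hNM hD)
      have hxm : x ∈ K ∩ Bas p (⋃₀ N) :=
        ⟨hxK, Filter.mem_of_superset hDx (subset_sUnion_of_mem hD)⟩
      obtain ⟨A, hAb, hAx⟩ := mem_iUnion₂.mp (hbc hxm)
      have : D ∩ A ∈ x.1 := Filter.inter_mem hDx hAx
      obtain ⟨a, ha⟩ := x.1.nonempty_of_mem this
      exact ⟨a, ha.1, A, hAb, ha.2⟩
    have : Nonempty κ := by
      obtain ⟨a, _⟩ := p.nonempty_of_mem Filter.univ_mem
      exact ⟨a⟩
    choose! a ha using hmeet
    have hinj : InjOn a N := by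
      intro D hD D' hD' h
      by_contra hne
      have hd : Disjoint D D' := hMd (hNM hD) (hNM hD') hne
      exact (Set.disjoint_left.mp hd) (ha D hD).1 (h ▸ (ha D' hD').1)
    exact hN (MapsTo.countable_of_injOn (fun D hD => (ha D hD).2) hinj hAc)
  have hk1 := key M₁ (hM12 ▸ subset_union_left) h1
  have hk2 := key M₂ (hM12 ▸ subset_union_right) h2
  have hint : ⋃₀ M₁ ∩ ⋃₀ M₂ ∈ p := Filter.inter_mem hk1 hk2
  obtain ⟨a, ⟨D, hD, haD⟩, D', hD', haD'⟩ := p.nonempty_of_mem hint
  have hne : D ≠ D' := fun h => (Set.disjoint_left.mp hdisj) hD (h ▸ hD')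
  have hd : Disjoint D D' := hMd (hM12 ▸ Or.inl hD : D ∈ M) (hM12 ▸ Or.inr hD' : D' ∈ M) hne
  exact (Set.disjoint_left.mp hd) haD haD'

lemma not_isKSpace (hp : ∀ A : Set κ, A.Countable → A ∉ p) : ¬ IsKSpace (Sp p) := by
  intro h
  have hcl : IsClosed {x : Sp p | x.1 ≠ p} := by
    apply h
    intro K hK
    obtain ⟨E, hE, hEK⟩ := exists_countable_of_isCompact p hK
    have : (Subtype.val ⁻¹' {x : Sp p | x.1 ≠ p} : Set K) = Subtype.val ⁻¹' (Bas p E) := by
      ext x
      constructor
      · intro hx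
        exact hEK x.1 x.2 hx
      · intro hx hxp
        have : E ∈ x.1.1 := hx
        rw [hxp] at this
        exact hp E hE this
    rw [this]
    exact (isClopen_Bas p E).isClosed.preimage continuous_subtype_val
  have hopen : IsOpen {x : Sp p | x.1 = p} := by
    have := hcl.isOpen_compl
    convert this using 1
    ext x
    simp
  obtain ⟨_, ⟨f, ⟨A, hA, rfl⟩, rfl⟩, hpA, hAsub⟩ :=
    (isBasis p).exists_subset_of_mem_open
      (show (⟨p, Or.inr rfl⟩ : Sp p) ∈ {x : Sp p | x.1 = p} from rfl) hopen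
  rw [cz_ind] at hpA hAsub
  obtain ⟨a, ha⟩ := p.nonempty_of_mem (show A ∈ p from hpA)
  have h1 : pt p a ∈ Bas p A := by simpa [pt, Bas] using ha
  have h2 : (pt p a).1 = p := hAsub h1
  refine hp {a} (countable_singleton a) ?_
  rw [← h2]
  simp [pt]

end Construction

/-- There is a Tychonoff space that has a cocompact pretty base and is not a k-space. -/
theorem main : ∃ (X : Type) (_ : TopologicalSpace X), T35Space X ∧
    (∃ H : Set (X → Fin 2), IsPretty X H ∧ IsCocompact (baseOf H)) ∧ ¬ IsKSpace X := by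
  have hne : (Filter.cocountable : Filter ℝ).NeBot := by
    refine ⟨fun h => ?_⟩
    have : (∅ : Set ℝ) ∈ (Filter.cocountable : Filter ℝ) := by rw [h]; trivial
    rw [Filter.mem_cocountable, compl_empty] at this
    exact Cardinal.not_countable_real this
  let p : Ultrafilter ℝ := Ultrafilter.of (Filter.cocountable : Filter ℝ)
  have hp : ∀ A : Set ℝ, A.Countable → A ∉ p := by
    intro A hA hAp
    have h1 : Aᶜ ∈ p := by
      apply Ultrafilter.of_le (Filter.cocountable : Filter ℝ)
      rw [Filter.mem_cocountable, compl_compl]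
      exact hA
    exact Ultrafilter.compl_mem_iff_notMem.mp h1 hAp
  exact ⟨Sp p, inferInstance, inferInstance, ⟨Fam p, isPretty p, isCocompact p⟩,
    not_isKSpace p hp⟩

end Pool.Agent.PrettyBase
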